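import Pool.Agent.Y748.SR.Stm

/-!
# Concavity of the logarithm of a stable polynomial with nonnegative coefficients at the origin
-/

set_option autoImplicit false

open Finset Filter Topology

namespace Pool.Agent.Y708.SR

open Pool.Agent.Y748.SR

variable {ι : Type} [DecidableEq ι]

/-- expansion to second order -/
theorem expand (c : ι → ℝ) (Y : Finset ι) : ∀ f : Finset ι → ℝ, ∃ R : Polynomial ℂ, ∀ x : ℂ,
    ∑ B ∈ Y.powerset, (f B : ℂ) * ∏ i ∈ B, (x * c i) =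
      f ∅ + x * ((∑ i ∈ Y, f {i} * c i : ℝ) : ℂ) +
        x ^ 2 * (((∑ i ∈ Y, ∑ j ∈ Y.erase i, f {i, j} * (c i * c j)) / 2 : ℝ) : ℂ) +
        x ^ 3 * R.eval x := by
  induction Y using Finset.induction_on with
  | empty => intro f; exact ⟨0, fun x => by simp⟩
  | insert a Y ha ih =>
    intro f
    obtain ⟨R, hR⟩ := ih f
    obtain ⟨R', hR'⟩ := ih (fun B => f (insert a B))
    obtain ⟨s1, hs1⟩ : ∃ s1 : ℝ, s1 = ∑ i ∈ Y, f (insert a {i}) * c i := ⟨_, rfl⟩
    obtain ⟨s2, hs2⟩ : ∃ s2 : ℝ,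
      s2 = (∑ i ∈ Y, ∑ j ∈ Y.erase i, f (insert a {i, j}) * (c i * c j)) / 2 := ⟨_, rfl⟩
    refine ⟨R + Polynomial.C ((c a : ℂ) * s2) + Polynomial.C (c a : ℂ) * Polynomial.X * R',
      fun x => ?_⟩
    rw [Finset.sum_powerset_insert ha, hR x]
    have h1 : ∑ B ∈ Y.powerset, (f (insert a B) : ℂ) * ∏ i ∈ insert a B, (x * c i) =
        x * c a * ∑ B ∈ Y.powerset, (f (insert a B) : ℂ) * ∏ i ∈ B, (x * c i) := by
      rw [Finset.mul_sum]
      apply Finset.sum_congr rfl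
      intro B hB
      have hB' : a ∉ B := fun h => ha (Finset.mem_powerset.mp hB h)
      rw [Finset.prod_insert hB']
      ring
    have h2 := hR' x
    rw [← hs1, ← hs2] at h2
    rw [h1, h2, Finset.sum_insert ha]
    have h3 : ∑ i ∈ insert a Y, ∑ j ∈ (insert a Y).erase i, f {i, j} * (c i * c j) =
        ∑ i ∈ Y, ∑ j ∈ Y.erase i, f {i, j} * (c i * c j) + 2 * (c a * s1) := by
      rw [Finset.sum_insert ha, Finset.erase_insert ha]
      have h4 : ∑ i ∈ Y, ∑ j ∈ (insert a Y).erase i, f {i, j} * (c i * c j) =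
          ∑ i ∈ Y, (f {i, a} * (c i * c a) + ∑ j ∈ Y.erase i, f {i, j} * (c i * c j)) := by
        apply Finset.sum_congr rfl
        intro i hi
        have hia : a ≠ i := fun h => ha (h ▸ hi)
        rw [Finset.erase_insert_of_ne hia, Finset.sum_insert (fun h => ha (Finset.mem_of_mem_erase h))]
      rw [h4, Finset.sum_add_distrib, hs1, Finset.mul_sum, Finset.mul_sum]
      have h5 : ∑ j ∈ Y, f {a, j} * (c a * c j) = ∑ i ∈ Y, f {i, a} * (c i * c a) := by
        apply Finset.sum_congr rfl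
        intro i _
        rw [Finset.pair_comm, mul_comm (c a)]
      have h6 : ∑ i ∈ Y, 2 * (c a * (f (insert a {i}) * c i)) =
          ∑ i ∈ Y, f {i, a} * (c i * c a) + ∑ i ∈ Y, f {i, a} * (c i * c a) := by
        rw [← Finset.sum_add_distrib]
        apply Finset.sum_congr rfl
        intro i _
        rw [show (insert a {i} : Finset ι) = {i, a} from Finset.pair_comm _ _]
        ring
      rw [h5, h6]
      ring
    rw [h3]
    simp only [Polynomial.eval_add, Polynomial.eval_mul, Polynomial.eval_C, Polynomial.eval_X]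
    have h7 : (insert a (∅ : Finset ι)) = {a} := rfl
    rw [h7]
    push_cast
    ring

/-- stability in the lower half-plane -/
theorem stable_neg {f : Finset ι → ℝ} (hf : Stable f) (Y : Finset ι) (z : ι → ℂ)
    (hz : ∀ i ∈ Y, (z i).im < 0) : ∑ B ∈ Y.powerset, (f B : ℂ) * ∏ i ∈ B, z i ≠ 0 := by
  intro h
  apply hf Y (fun i => starRingEnd ℂ (z i)) (fun i hi => by
    rw [Complex.conj_im]
    linarith [hz i hi])
  have h1 := congrArg (starRingEnd ℂ) h
  rw [map_sum, map_zero] at h1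
  rw [← h1]
  apply Finset.sum_congr rfl
  intro B _
  rw [map_mul, map_prod, Complex.conj_ofReal]

/-- the homogenized polynomial (perturbed) -/
noncomputable def QQ (f : Finset ι → ℝ) (Y : Finset ι) (δ : ℝ) (v : ι → ℂ) : Polynomial ℂ :=
  ∑ B ∈ Y.powerset, Polynomial.C ((f B : ℂ) * ∏ i ∈ B, v i) *
    ∏ i ∈ Y \ B, (Polynomial.X + Polynomial.C (δ * v i))

theorem QQ_eval (f : Finset ι → ℝ) (Y : Finset ι) (δ : ℝ) (v : ι → ℂ) (μ : ℂ) :
    (QQ f Y δ v).eval μ =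
      ∑ B ∈ Y.powerset, (f B : ℂ) * (∏ i ∈ B, v i) * ∏ i ∈ Y \ B, (μ + δ * v i) := by
  rw [QQ, Polynomial.eval_finsetSum]
  apply Finset.sum_congr rfl
  intro B _
  rw [Polynomial.eval_mul, Polynomial.eval_C, Polynomial.eval_prod]
  simp only [Polynomial.eval_add, Polynomial.eval_X, Polynomial.eval_C]

theorem QQ_eval' (f : Finset ι → ℝ) (Y : Finset ι) (δ : ℝ) (v : ι → ℂ) (μ : ℂ)
    (h : ∀ i ∈ Y, μ + δ * v i ≠ 0) :
    (QQ f Y δ v).eval μ = (∏ i ∈ Y, (μ + δ * v i)) *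
      ∑ B ∈ Y.powerset, (f B : ℂ) * ∏ i ∈ B, (v i / (μ + δ * v i)) := by
  rw [QQ_eval, Finset.mul_sum]
  apply Finset.sum_congr rfl
  intro B hB
  have hB' := Finset.mem_powerset.mp hB
  rw [← Finset.prod_sdiff hB', Finset.prod_div_distrib]
  have h1 : ∏ i ∈ B, (μ + δ * v i) ≠ 0 := Finset.prod_ne_zero_iff.mpr fun i hi => h i (hB' hi)
  field_simp

theorem QQ_monic {f : Finset ι → ℝ} (h0 : f ∅ = 1) (Y : Finset ι) (δ : ℝ) (v : ι → ℂ) :
    (QQ f Y δ v).Monic ∧ (QQ f Y δ v).natDegree = Y.card := by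
  have h1 : (∏ i ∈ Y, (Polynomial.X + Polynomial.C (δ * v i)) : Polynomial ℂ).Monic :=
    Polynomial.monic_prod_of_monic _ _ fun i _ => Polynomial.monic_X_add_C _
  have h2 : ∀ Z : Finset ι, (∏ i ∈ Z, (Polynomial.X + Polynomial.C (δ * v i)) : Polynomial ℂ).degree =
      Z.card := by
    intro Z
    rw [Polynomial.degree_prod]
    simp only [Polynomial.degree_X_add_C, Finset.sum_const, nsmul_eq_mul, mul_one]
  have h3 : QQ f Y δ v = (∏ i ∈ Y, (Polynomial.X + Polynomial.C (δ * v i))) +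
      ∑ B ∈ Y.powerset.erase ∅, Polynomial.C ((f B : ℂ) * ∏ i ∈ B, v i) *
        ∏ i ∈ Y \ B, (Polynomial.X + Polynomial.C (δ * v i)) := by
    rw [QQ, ← Finset.add_sum_erase _ _ (Finset.empty_mem_powerset Y)]
    simp [h0]
  have h4 : (∑ B ∈ Y.powerset.erase ∅, Polynomial.C ((f B : ℂ) * ∏ i ∈ B, v i) *
        ∏ i ∈ Y \ B, (Polynomial.X + Polynomial.C (δ * v i))).degree <
      (∏ i ∈ Y, (Polynomial.X + Polynomial.C (δ * v i)) : Polynomial ℂ).degree := by
    rw [h2]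
    refine lt_of_le_of_lt (Polynomial.degree_sum_le _ _) ?_
    rw [Finset.sup_lt_iff (WithBot.bot_lt_coe _)]
    intro B hB
    have hB0 := Finset.ne_of_mem_erase hB
    have hB1 := Finset.mem_powerset.mp (Finset.mem_of_mem_erase hB)
    refine lt_of_le_of_lt (Polynomial.degree_mul_le _ _) ?_
    refine lt_of_le_of_lt (add_le_add_left Polynomial.degree_C_le _) ?_
    rw [h2, zero_add]
    have h5 : (Y \ B).card < Y.card :=
      Finset.card_lt_card (Finset.sdiff_ssubset hB1 (Finset.nonempty_iff_ne_empty.mpr hB0))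
    exact_mod_cast h5
  have h6 := h1.add_of_left h4
  rw [← h3] at h6
  refine ⟨h6, ?_⟩
  have h7 := Polynomial.degree_add_eq_left_of_degree_lt h4
  rw [← h3, h2] at h7
  exact Polynomial.natDegree_eq_of_degree_eq_some h7

/-! ### Zeros of the homogenized polynomial -/

theorem im_div (v : ℂ) (μ δ : ℝ) :
    (v / (μ + δ * v)).im = μ * v.im / Complex.normSq (μ + δ * v) := by
  rw [Complex.div_im]
  simp only [Complex.add_re, Complex.add_im, Complex.ofReal_re, Complex.ofReal_im,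
    Complex.re_ofReal_mul, Complex.im_ofReal_mul]
  ring

/-- no real zeros -/
theorem QQ_real {f : Finset ι → ℝ} (hf : Stable f) (hn : ∀ B, 0 ≤ f B) (h0 : f ∅ = 1)
    (Y : Finset ι) {δ : ℝ} (hδ : 0 < δ) (v : ι → ℂ) (hv : ∀ i ∈ Y, 0 < (v i).im) (μ : ℝ) :
    (QQ f Y δ v).eval (μ : ℂ) ≠ 0 := by
  have hne : ∀ i ∈ Y, (μ : ℂ) + δ * v i ≠ 0 := by
    intro i hi h
    have h1 := congrArg Complex.im h
    rw [Complex.add_im, Complex.ofReal_im, Complex.im_ofReal_mul, zero_add, Complex.zero_im] at h1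
    have := mul_pos hδ (hv i hi)
    linarith
  have hpos : ∀ i ∈ Y, 0 < Complex.normSq ((μ : ℂ) + δ * v i) := fun i hi =>
    Complex.normSq_pos.mpr (hne i hi)
  rcases lt_trichotomy μ 0 with hμ | hμ | hμ
  · rw [QQ_eval' f Y δ v μ hne]
    refine mul_ne_zero (Finset.prod_ne_zero_iff.mpr hne) (stable_neg hf Y _ fun i hi => ?_)
    rw [im_div]
    exact div_neg_of_neg_of_pos (mul_neg_of_neg_of_pos hμ (hv i hi)) (hpos i hi)
  · subst hμ
    rw [QQ_eval]
    have h1 : ∑ B ∈ Y.powerset, (f B : ℂ) * (∏ i ∈ B, v i) *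
        ∏ i ∈ Y \ B, (((0 : ℝ) : ℂ) + δ * v i) =
        ((∑ B ∈ Y.powerset, f B * δ ^ (Y \ B).card : ℝ) : ℂ) * ∏ i ∈ Y, v i := by
      push_cast
      rw [Finset.sum_mul]
      apply Finset.sum_congr rfl
      intro B hB
      rw [← Finset.prod_sdiff (Finset.mem_powerset.mp hB)]
      simp only [zero_add]
      rw [Finset.prod_mul_distrib, Finset.prod_const]
      ring
    rw [h1]
    refine mul_ne_zero ?_ (Finset.prod_ne_zero_iff.mpr fun i hi h => ?_)
    · have h2 : 0 < ∑ B ∈ Y.powerset, f B * δ ^ (Y \ B).card := by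
        refine Finset.sum_pos' (fun B _ => mul_nonneg (hn B) (by positivity))
          ⟨∅, Finset.empty_mem_powerset _, ?_⟩
        rw [h0]
        positivity
      exact_mod_cast h2.ne'
    · have h2 := hv i hi
      rw [h] at h2
      simp at h2
  · rw [QQ_eval' f Y δ v μ hne]
    refine mul_ne_zero (Finset.prod_ne_zero_iff.mpr hne) (hf Y _ fun i hi => ?_)
    rw [im_div]
    exact div_pos (mul_pos hμ (hv i hi)) (hpos i hi)

/-- the start of the path -/
theorem QQ_start {f : Finset ι → ℝ} (hf : Stable f) (hn : ∀ B, 0 ≤ f B) (h0 : f ∅ = 1)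
    (Y : Finset ι) {δ ε : ℝ} (hδ : 0 < δ) (hε : 0 < ε) (μ : ℂ) (hμ : 0 ≤ μ.im) :
    (QQ f Y δ (fun _ => (ε : ℂ) * Complex.I)).eval μ ≠ 0 := by
  obtain ⟨w, hw⟩ : ∃ w : ℂ, w = μ + δ * ((ε : ℂ) * Complex.I) := ⟨_, rfl⟩
  have hwim : 0 < w.im := by
    rw [hw, Complex.add_im, Complex.im_ofReal_mul, Complex.im_ofReal_mul, Complex.I_im, mul_one]
    have := mul_pos hδ hε
    linarith
  have hw0 : w ≠ 0 := fun h => by
    rw [h, Complex.zero_im] at hwim
    exact lt_irrefl _ hwim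
  rw [QQ_eval' f Y δ _ μ (fun i _ => by rw [← hw]; exact hw0)]
  simp only [← hw]
  refine mul_ne_zero (Finset.prod_ne_zero_iff.mpr fun _ _ => hw0) ?_
  obtain ⟨u, hu⟩ : ∃ u : ℂ, u = (ε : ℂ) * Complex.I / w := ⟨_, rfl⟩
  rw [← hu]
  rcases lt_trichotomy u.im 0 with h | h | h
  · exact stable_neg hf Y (fun _ => u) fun _ _ => h
  · have h1 : u * w = (ε : ℂ) * Complex.I := by rw [hu, div_mul_cancel₀ _ hw0]
    have h2 : u = ((u.re : ℝ) : ℂ) := Complex.ext rfl (by rw [h, Complex.ofReal_im])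
    have h3 := congrArg Complex.im h1
    rw [h2, Complex.im_ofReal_mul, Complex.im_ofReal_mul, Complex.I_im, mul_one] at h3
    have h4 : 0 < u.re := by
      by_contra h5
      push Not at h5
      nlinarith
    rw [h2]
    have h5 : ∑ B ∈ Y.powerset, (f B : ℂ) * ∏ _i ∈ B, ((u.re : ℝ) : ℂ) =
        ((∑ B ∈ Y.powerset, f B * u.re ^ B.card : ℝ) : ℂ) := by
      push_cast
      apply Finset.sum_congr rfl
      intro B _
      rw [Finset.prod_const]
    rw [h5]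
    have h6 : 0 < ∑ B ∈ Y.powerset, f B * u.re ^ B.card := by
      refine Finset.sum_pos' (fun B _ => mul_nonneg (hn B) (by positivity))
        ⟨∅, Finset.empty_mem_powerset _, ?_⟩
      rw [h0]
      positivity
    exact_mod_cast h6.ne'
  · exact hf Y (fun _ => u) fun _ _ => h

/-- lower bound of a polynomial without zeros in the closed upper half-plane -/
theorem norm_ge {P : Polynomial ℂ} (hP : P.Monic) (h : ∀ μ : ℂ, 0 ≤ μ.im → P.eval μ ≠ 0) (μ : ℂ)
    (hμ : 0 < μ.im) : μ.im ^ P.natDegree ≤ ‖P.eval μ‖ := by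
  have hs : P.Splits := IsAlgClosed.splits P
  have h1 := hs.eval_eq_prod_roots_of_monic hP μ
  have h2 : P.natDegree = P.roots.card := hs.natDegree_eq_card_roots
  rw [h1, h2]
  have h3 : ∀ a ∈ P.roots, a.im < 0 := by
    intro a ha
    by_contra h4
    push Not at h4
    exact h a h4 (Polynomial.isRoot_of_mem_roots ha)
  clear h1 h2
  generalize P.roots = s at h3
  induction s using Multiset.induction_on with
  | empty => simp
  | cons a s ih =>
    rw [Multiset.card_cons, pow_succ', Multiset.map_cons, Multiset.prod_cons, norm_mul]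
    refine mul_le_mul ?_ (ih fun b hb => h3 b (Multiset.mem_cons_of_mem hb)) (by positivity)
      (norm_nonneg _)
    have h4 := h3 a (Multiset.mem_cons_self a s)
    have h5 := Complex.abs_im_le_norm (μ - a)
    rw [Complex.sub_im] at h5
    have h6 := le_abs_self (μ.im - a.im)
    linarith

/-- zeros are bounded -/
theorem QQ_bound {f : Finset ι → ℝ} (hn : ∀ B, 0 ≤ f B) (h0 : f ∅ = 1)
    (Y : Finset ι) {δ V : ℝ} (hδ : 0 < δ) (hV : 0 ≤ V) : ∃ R : ℝ, 0 < R ∧ ∀ v : ι → ℂ,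
      (∀ i ∈ Y, ‖v i‖ ≤ V) → ∀ μ : ℂ, R ≤ ‖μ‖ → (QQ f Y δ v).eval μ ≠ 0 := by
  obtain ⟨S, hS⟩ : ∃ S : ℝ, S = ∑ B ∈ Y.powerset.erase ∅, f B := ⟨_, rfl⟩
  have hS0 : 0 ≤ S := by rw [hS]; exact Finset.sum_nonneg fun B _ => hn B
  refine ⟨δ * V + (V + 1) * (S + 1) , by positivity, fun v hv μ hμ => ?_⟩
  have h1 : ∀ i ∈ Y, (V + 1) * (S + 1) ≤ ‖μ + δ * v i‖ := by
    intro i hi
    have h2 : ‖μ‖ ≤ ‖μ + δ * v i‖ + ‖(δ : ℂ) * v i‖ := by
      have := norm_sub_le (μ + δ * v i) (δ * v i)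
      rwa [add_sub_cancel_right] at this
    rw [norm_mul, Complex.norm_real, Real.norm_eq_abs, abs_of_pos hδ] at h2
    have h3 := mul_le_mul_of_nonneg_left (hv i hi) hδ.le
    linarith
  have h2 : ∀ i ∈ Y, μ + δ * v i ≠ 0 := fun i hi h => by
    have h3 := h1 i hi
    rw [h, norm_zero] at h3
    have : 0 < (V + 1) * (S + 1) := by positivity
    linarith
  rw [QQ_eval' f Y δ v μ h2]
  refine mul_ne_zero (Finset.prod_ne_zero_iff.mpr h2) fun h3 => ?_
  have h4 : ∀ i ∈ Y, ‖v i / (μ + δ * v i)‖ ≤ 1 / (S + 1) := by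
    intro i hi
    rw [norm_div, div_le_div_iff₀ (norm_pos_iff.mpr (h2 i hi)) (by positivity), one_mul]
    have h5 := h1 i hi
    have h6 := hv i hi
    have h7 := norm_nonneg (v i)
    nlinarith
  have h5 : (1 : ℝ) / (S + 1) ≤ 1 := by
    rw [div_le_one (by positivity)]
    linarith
  have h6 : ∀ B ∈ Y.powerset.erase ∅, ‖(f B : ℂ) * ∏ i ∈ B, (v i / (μ + δ * v i))‖ ≤
      f B * (1 / (S + 1)) := by
    intro B hB
    rw [norm_mul, Complex.norm_real, Real.norm_eq_abs, abs_of_nonneg (hn B), norm_prod]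
    apply mul_le_mul_of_nonneg_left _ (hn B)
    have hB0 := Finset.nonempty_iff_ne_empty.mpr (Finset.ne_of_mem_erase hB)
    have hB1 := Finset.mem_powerset.mp (Finset.mem_of_mem_erase hB)
    obtain ⟨a, ha⟩ := hB0
    rw [← Finset.mul_prod_erase _ _ ha]
    calc ‖v a / (μ + δ * v a)‖ * ∏ i ∈ B.erase a, ‖v i / (μ + δ * v i)‖
        ≤ 1 / (S + 1) * 1 := by
          apply mul_le_mul (h4 a (hB1 ha)) _ (Finset.prod_nonneg fun _ _ => norm_nonneg _)
            (by positivity)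
          exact Finset.prod_le_one (fun _ _ => norm_nonneg _) fun i hi =>
            (h4 i (hB1 (Finset.mem_of_mem_erase hi))).trans h5
      _ = 1 / (S + 1) := mul_one _
  rw [← Finset.add_sum_erase _ _ (Finset.empty_mem_powerset Y)] at h3
  rw [h0, Finset.prod_empty, mul_one, Complex.ofReal_one] at h3
  have h7 : ‖∑ B ∈ Y.powerset.erase ∅, (f B : ℂ) * ∏ i ∈ B, (v i / (μ + δ * v i))‖ ≤
      S * (1 / (S + 1)) := by
    refine (norm_sum_le _ _).trans ((Finset.sum_le_sum h6).trans ?_)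
    rw [← Finset.sum_mul, hS]
  have h8 : (∑ B ∈ Y.powerset.erase ∅, (f B : ℂ) * ∏ i ∈ B, (v i / (μ + δ * v i))) = -1 :=
    (eq_neg_of_add_eq_zero_right h3)
  rw [h8, norm_neg, norm_one, mul_one_div, le_div_iff₀ (by positivity)] at h7
  linarith

/-- the polynomial is jointly continuous -/
theorem QQ_cont (f : Finset ι → ℝ) (Y : Finset ι) {T : Type} [TopologicalSpace T]
    {δ : T → ℝ} {v : T → ι → ℂ} {μ : T → ℂ} (hδ : Continuous δ) (hv : ∀ i, Continuous fun t => v t i)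
    (hμ : Continuous μ) : Continuous fun t => (QQ f Y (δ t) (v t)).eval (μ t) := by
  simp only [QQ_eval]
  refine continuous_finsetSum _ fun B _ => ?_
  refine (continuous_const.mul (continuous_finsetProd _ fun i _ => hv i)).mul
    (continuous_finsetProd _ fun i _ => ?_)
  exact hμ.add ((Complex.continuous_ofReal.comp hδ).mul (hv i))

/-- the main estimate -/
theorem QQ_ge {f : Finset ι → ℝ} (hf : Stable f) (hn : ∀ B, 0 ≤ f B) (h0 : f ∅ = 1)
    (Y : Finset ι) (c : ι → ℝ) {δ ε : ℝ} (hδ : 0 < δ) (hε : 0 < ε) (μ : ℂ) (hμ : 0 < μ.im) :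
    μ.im ^ Y.card ≤ ‖(QQ f Y δ (fun i => (c i : ℂ) + ε * Complex.I)).eval μ‖ := by
  obtain ⟨v, hv⟩ : ∃ v : ℝ → ι → ℂ, v = fun τ i => ((τ * c i : ℝ) : ℂ) + ε * Complex.I := ⟨_, rfl⟩
  have hvim : ∀ τ, ∀ i ∈ Y, 0 < (v τ i).im := by
    intro τ i _
    rw [hv]
    simp only [Complex.add_im, Complex.ofReal_im, Complex.im_ofReal_mul, Complex.I_im, mul_one,
      zero_add]
    exact hε
  have hvc : ∀ i, Continuous fun τ => v τ i := fun i => by
    rw [hv]
    exact (Complex.continuous_ofReal.comp (continuous_id.mul continuous_const)).add continuous_const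
  obtain ⟨V, hV0, hV⟩ : ∃ V : ℝ, 0 ≤ V ∧ ∀ τ ∈ Set.Icc (0 : ℝ) 1, ∀ i ∈ Y, ‖v τ i‖ ≤ V := by
    refine ⟨∑ i ∈ Y, |c i| + ε, by positivity, fun τ hτ i hi => ?_⟩
    rw [hv]
    refine (norm_add_le _ _).trans (add_le_add ?_ ?_)
    · rw [Complex.norm_real, Real.norm_eq_abs, abs_mul, abs_of_nonneg hτ.1]
      have h1 : τ * |c i| ≤ 1 * |c i| := mul_le_mul_of_nonneg_right hτ.2 (abs_nonneg _)
      have h2 : |c i| ≤ ∑ i ∈ Y, |c i| :=
        Finset.single_le_sum (f := fun i => |c i|) (fun i _ => abs_nonneg (c i)) hi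
      linarith
    · rw [norm_mul, Complex.norm_I, Complex.norm_real, Real.norm_eq_abs, abs_of_pos hε, mul_one]
  obtain ⟨R, hR0, hR⟩ := QQ_bound hn h0 Y hδ hV0
  -- the two closed sets
  obtain ⟨A, hA⟩ : ∃ A : Set ℝ, A = {τ | ∀ μ : ℂ, 0 < μ.im →
    μ.im ^ Y.card ≤ ‖(QQ f Y δ (v τ)).eval μ‖} := ⟨_, rfl⟩
  obtain ⟨K, hK⟩ : ∃ K : Set (ℝ × ℂ), K = {x | x.1 ∈ Set.Icc (0 : ℝ) 1 ∧ ‖x.2‖ ≤ R ∧ 0 ≤ x.2.im ∧
    (QQ f Y δ (v x.1)).eval x.2 = 0} := ⟨_, rfl⟩
  have hAc : IsClosed A := by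
    rw [hA]
    simp only [Set.ofPred_forall]
    refine isClosed_iInter fun μ => isClosed_iInter fun _ => ?_
    exact isClosed_le continuous_const (QQ_cont f Y continuous_const hvc continuous_const).norm
  have hKc : IsCompact K := by
    have h1 : IsCompact (Set.Icc (0 : ℝ) 1 ×ˢ Metric.closedBall (0 : ℂ) R) :=
      isCompact_Icc.prod (isCompact_closedBall _ _)
    refine h1.of_isClosed_subset ?_ ?_
    · rw [hK]
      refine IsClosed.inter (isClosed_Icc.preimage continuous_fst)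
        (IsClosed.inter (isClosed_le continuous_snd.norm continuous_const)
          (IsClosed.inter (isClosed_le continuous_const (Complex.continuous_im.comp continuous_snd))
            (isClosed_eq (QQ_cont f Y continuous_const (fun i => (hvc i).comp continuous_fst)
              continuous_snd) continuous_const)))
    · rintro x hx
      rw [hK] at hx
      exact ⟨hx.1, by rw [mem_closedBall_zero_iff]; exact hx.2.1⟩
  have hBc : IsClosed (Prod.fst '' K) := (hKc.image continuous_fst).isClosed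
  have hcov : Set.Icc (0 : ℝ) 1 ⊆ A ∪ Prod.fst '' K := by
    intro τ hτ
    by_cases h : ∀ μ : ℂ, 0 ≤ μ.im → (QQ f Y δ (v τ)).eval μ ≠ 0
    · left
      rw [hA]
      intro μ hμ
      obtain ⟨h1, h2⟩ := QQ_monic h0 Y δ (v τ)
      have h3 := norm_ge h1 h μ hμ
      rwa [h2] at h3
    · right
      push Not at h
      obtain ⟨ν, hν1, hν2⟩ := h
      refine ⟨(τ, ν), ?_, rfl⟩
      rw [hK]
      refine ⟨hτ, ?_, hν1, hν2⟩
      by_contra h3
      push Not at h3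
      exact hR (v τ) (hV τ hτ) ν h3.le hν2
  have hdisj : ∀ τ, τ ∈ A → τ ∉ Prod.fst '' K := by
    rintro τ hτ ⟨⟨τ', ν⟩, hx, rfl⟩
    rw [hK] at hx
    obtain ⟨-, -, h1, h2⟩ := hx
    rw [hA] at hτ
    rcases lt_or_eq_of_le h1 with h3 | h3
    · have h4 := hτ ν h3
      rw [h2, norm_zero] at h4
      have : 0 < ν.im ^ Y.card := pow_pos h3 _
      linarith
    · have h4 : ν = ((ν.re : ℝ) : ℂ) := Complex.ext rfl (by rw [← h3, Complex.ofReal_im])
      have h5 := QQ_real hf hn h0 Y hδ (v τ') (hvim τ') ν.re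
      rw [← h4] at h5
      exact h5 h2
  have h0A : (0 : ℝ) ∈ A := by
    rw [hA]
    intro μ hμ
    obtain ⟨h1, h2⟩ := QQ_monic h0 Y δ (v 0)
    have h3 : v 0 = fun _ => (ε : ℂ) * Complex.I := by
      rw [hv]
      funext i
      simp
    have h4 := norm_ge h1 (fun ν hν => by rw [h3]; exact QQ_start hf hn h0 Y hδ hε ν hν) μ hμ
    rwa [h2] at h4
  have h1A : (1 : ℝ) ∈ A := by
    by_contra h
    have h1 : (1 : ℝ) ∈ Prod.fst '' K :=
      (hcov (Set.right_mem_Icc.mpr zero_le_one)).resolve_left h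
    obtain ⟨τ, -, h2, h3⟩ := isPreconnected_closed_iff.mp isPreconnected_Icc A (Prod.fst '' K) hAc
      hBc hcov ⟨0, Set.left_mem_Icc.mpr zero_le_one, h0A⟩
      ⟨1, Set.right_mem_Icc.mpr zero_le_one, h1⟩
    exact hdisj τ h2 h3
  rw [hA] at h1A
  have h2 := h1A μ hμ
  rw [hv] at h2
  simpa using h2

/-- the estimate on the imaginary axis -/
theorem one_le {f : Finset ι → ℝ} (hf : Stable f) (hn : ∀ B, 0 ≤ f B) (h0 : f ∅ = 1)
    (Y : Finset ι) (c : ι → ℝ) {x : ℝ} (hx : 0 < x) :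
    1 ≤ ‖∑ B ∈ Y.powerset, (f B : ℂ) * ∏ i ∈ B, ((-(x * Complex.I)) * c i)‖ := by
  obtain ⟨μ, hμ⟩ : ∃ μ : ℂ, μ = ((x⁻¹ : ℝ) : ℂ) * Complex.I := ⟨_, rfl⟩
  have hμim : μ.im = x⁻¹ := by
    rw [hμ, Complex.im_ofReal_mul, Complex.I_im, mul_one]
  have hμn : ‖μ‖ = x⁻¹ := by
    rw [hμ, norm_mul, Complex.norm_I, mul_one, Complex.norm_real, Real.norm_eq_abs,
      abs_of_pos (inv_pos.mpr hx)]
  have hμ0 : μ ≠ 0 := norm_pos_iff.mp (by rw [hμn]; positivity)
  -- the limit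
  have h1 : (x⁻¹) ^ Y.card ≤ ‖(QQ f Y 0 (fun i => (c i : ℂ))).eval μ‖ := by
    have h2 : Continuous fun ε : ℝ =>
        ‖(QQ f Y ε (fun i => (c i : ℂ) + (ε : ℂ) * Complex.I)).eval μ‖ :=
      (QQ_cont f Y continuous_id (fun i => continuous_const.add
        (Complex.continuous_ofReal.mul continuous_const)) continuous_const).norm
    have h3 := (h2.tendsto 0).mono_left (nhdsWithin_le_nhds (s := Set.Ioi (0 : ℝ)))
    simp only [Complex.ofReal_zero, zero_mul, add_zero] at h3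
    refine ge_of_tendsto h3 ?_
    filter_upwards [self_mem_nhdsWithin] with ε hε
    have h4 := QQ_ge hf hn h0 Y c (δ := ε) (ε := ε) hε hε μ (by rw [hμim]; positivity)
    rwa [hμim] at h4
  rw [QQ_eval' f Y 0 _ μ (fun i _ => by simpa using hμ0)] at h1
  simp only [Complex.ofReal_zero, zero_mul, add_zero] at h1
  rw [Finset.prod_const, norm_mul, norm_pow, hμn] at h1
  have h5 : 0 < (x⁻¹) ^ Y.card := by positivity
  have h6 := (le_mul_iff_one_le_right h5).mp h1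
  have h7 : ∀ i, (c i : ℂ) / μ = (-(x * Complex.I)) * c i := by
    intro i
    rw [div_eq_iff hμ0, hμ]
    have hx' : (x : ℂ) ≠ 0 := by exact_mod_cast hx.ne'
    push_cast
    field_simp
    rw [Complex.I_sq]
    ring
  simp only [h7] at h6
  exact h6

theorem t_PSD : S_PSD := by
  intro ι _ f hf hn h0 Y c
  obtain ⟨R, hR⟩ := expand c Y f
  obtain ⟨a, ha⟩ : ∃ a : ℝ, a = ∑ i ∈ Y, f {i} * c i := ⟨_, rfl⟩
  obtain ⟨b, hb⟩ : ∃ b : ℝ, b = (∑ i ∈ Y, ∑ j ∈ Y.erase i, f {i, j} * (c i * c j)) / 2 := ⟨_, rfl⟩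
  have hgoal : 0 ≤ a ^ 2 - 2 * b → ∑ i ∈ Y, ∑ j ∈ Y.erase i, f {i, j} * (c i * c j) ≤
      (∑ i ∈ Y, f {i} * c i) ^ 2 := by
    intro h
    rw [← ha]
    rw [hb] at h
    linarith
  apply hgoal
  -- bound of the remainder
  obtain ⟨M, hM⟩ : ∃ M : ℝ, ∀ x ∈ Set.Icc (0 : ℝ) 1, ‖R.eval (-((x : ℂ) * Complex.I))‖ ≤ M := by
    have h1 : Continuous fun x : ℝ => R.eval (-((x : ℂ) * Complex.I)) :=
      R.continuous.comp (Complex.continuous_ofReal.mul continuous_const).neg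
    exact isCompact_Icc.exists_bound_of_continuousOn h1.continuousOn
  have hM0 : 0 ≤ M := (norm_nonneg _).trans (hM 0 (Set.left_mem_Icc.mpr zero_le_one))
  have key : ∀ x : ℝ, 0 < x → x ≤ 1 →
      0 ≤ a ^ 2 - 2 * b + x * (b ^ 2 + 2 * (1 + |b| + |a|) * M + M ^ 2) := by
    intro x hx hx1
    have h1 := one_le hf hn h0 Y c hx
    rw [hR, h0, ← ha, ← hb] at h1
    have h2 : ((1 : ℝ) : ℂ) + -(↑x * Complex.I) * (a : ℂ) + (-(↑x * Complex.I)) ^ 2 * (b : ℂ) =
        ((1 - x ^ 2 * b : ℝ) : ℂ) + ((-(x * a) : ℝ) : ℂ) * Complex.I := by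
      push_cast
      rw [neg_sq, mul_pow, Complex.I_sq]
      ring
    obtain ⟨D, hD⟩ : ∃ D : ℂ, D = ((1 - x ^ 2 * b : ℝ) : ℂ) + ((-(x * a) : ℝ) : ℂ) * Complex.I :=
      ⟨_, rfl⟩
    have hD2 : ‖D‖ ^ 2 = (1 - x ^ 2 * b) ^ 2 + (x * a) ^ 2 := by
      rw [hD, ← Complex.normSq_eq_norm_sq, Complex.normSq_add_mul_I]
      ring
    have hDle : ‖D‖ ≤ 1 + |b| + |a| := by
      rw [hD]
      refine (norm_add_le _ _).trans ?_
      rw [norm_mul, Complex.norm_I, mul_one, Complex.norm_real, Complex.norm_real,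
        Real.norm_eq_abs, Real.norm_eq_abs, abs_neg, abs_mul, abs_of_pos hx]
      have h3 : |1 - x ^ 2 * b| ≤ 1 + x ^ 2 * |b| := by
        refine (abs_sub _ _).trans ?_
        rw [abs_one, abs_mul, abs_of_nonneg (sq_nonneg x)]
      have h4 : x ^ 2 * |b| ≤ 1 * |b| :=
        mul_le_mul_of_nonneg_right (pow_le_one₀ hx.le hx1) (abs_nonneg _)
      have h5 : x * |a| ≤ 1 * |a| := mul_le_mul_of_nonneg_right hx1 (abs_nonneg _)
      linarith
    rw [h2, ← hD] at h1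
    have h3 : ‖(-(↑x * Complex.I)) ^ 3 * R.eval (-(↑x * Complex.I))‖ ≤ x ^ 3 * M := by
      rw [norm_mul, norm_pow, norm_neg, norm_mul, Complex.norm_I, mul_one, Complex.norm_real,
        Real.norm_eq_abs, abs_of_pos hx]
      exact mul_le_mul_of_nonneg_left (hM x ⟨hx.le, hx1⟩) (by positivity)
    have h4 : 1 ≤ ‖D‖ + x ^ 3 * M := h1.trans ((norm_add_le _ _).trans (add_le_add_right h3 _))
    have h5 : (1 : ℝ) ≤ (‖D‖ + x ^ 3 * M) ^ 2 := by nlinarith
    have h6 : (‖D‖ + x ^ 3 * M) ^ 2 = 1 + x ^ 2 * (a ^ 2 - 2 * b) + x ^ 4 * b ^ 2 +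
        2 * ‖D‖ * (x ^ 3 * M) + x ^ 6 * M ^ 2 := by
      calc (‖D‖ + x ^ 3 * M) ^ 2 = ‖D‖ ^ 2 + 2 * ‖D‖ * (x ^ 3 * M) + x ^ 6 * M ^ 2 := by ring
        _ = _ := by
          rw [hD2]
          ring
    rw [h6] at h5
    have hx3 : 0 < x ^ 3 := by positivity
    have h7 : x ^ 4 * b ^ 2 ≤ x ^ 3 * b ^ 2 :=
      mul_le_mul_of_nonneg_right (by nlinarith) (sq_nonneg _)
    have h8 : 2 * ‖D‖ * (x ^ 3 * M) ≤ 2 * (1 + |b| + |a|) * (x ^ 3 * M) :=
      mul_le_mul_of_nonneg_right (by linarith) (by positivity)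
    have h9 : x ^ 6 * M ^ 2 ≤ x ^ 3 * M ^ 2 := by
      apply mul_le_mul_of_nonneg_right _ (sq_nonneg _)
      exact pow_le_pow_of_le_one hx.le hx1 (by norm_num)
    have h10 : 0 ≤ x ^ 2 * (a ^ 2 - 2 * b + x * (b ^ 2 + 2 * (1 + |b| + |a|) * M + M ^ 2)) := by
      calc (0 : ℝ) ≤ x ^ 2 * (a ^ 2 - 2 * b) + x ^ 3 * b ^ 2 +
            2 * (1 + |b| + |a|) * (x ^ 3 * M) + x ^ 3 * M ^ 2 := by linarith
        _ = _ := by ring
    exact nonneg_of_mul_nonneg_right h10 (by positivity)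
  have hlim : Tendsto (fun x : ℝ => a ^ 2 - 2 * b +
      x * (b ^ 2 + 2 * (1 + |b| + |a|) * M + M ^ 2)) (𝓝[>] 0) (𝓝 (a ^ 2 - 2 * b)) := by
    have h1 : Continuous fun x : ℝ => a ^ 2 - 2 * b +
      x * (b ^ 2 + 2 * (1 + |b| + |a|) * M + M ^ 2) := by fun_prop
    have h2 := (h1.tendsto 0).mono_left (nhdsWithin_le_nhds (s := Set.Ioi (0 : ℝ)))
    simpa using h2
  refine ge_of_tendsto hlim ?_
  filter_upwards [Ioo_mem_nhdsGT (zero_lt_one (α := ℝ))] with x hx
  exact key x hx.1 hx.2.le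

end Pool.Agent.Y708.SR
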